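import Pool.Agent.W163.PSI.Defs

/-! Blow-ups of the directed 4-cycle. -/

set_option autoImplicit false
set_option linter.unusedVariables false
set_option linter.unusedSectionVars false

namespace Pool.Agent.W932.PSI

open Pool.Agent.W163.PSI

theorem z1 : ∀ p : ZMod 4, p ≠ p + 1 := by decide
theorem z2 : ∀ p : ZMod 4, p ≠ p - 1 := by decide
theorem z3 : ∀ p q : ZMod 4, q = p + 1 → p = q + 1 → False := by decide
theorem z4 : ∀ p q r : ZMod 4, (q = p + 1 ∨ p = q) → (r = q + 1 ∨ q = r) → (p = r + 1 ∨ r = p) →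
    p = q ∧ q = r := by decide

section

variable {P : ZMod 4 → Type} (R : ∀ p, P p → P p → Prop)

/-- the blow-up -/
def Bu (u v : Σ p, P p) : Prop := v.1 = u.1 + 1 ∨ ∃ h : u.1 = v.1, R v.1 (h ▸ u.2) v.2

theorem Bu_same (p : ZMod 4) (x y : P p) : Bu R ⟨p, x⟩ ⟨p, y⟩ ↔ R p x y := by
  constructor
  · rintro (h | ⟨h, h1⟩)
    · exact absurd h (z1 p)
    · exact h1
  · intro h
    exact Or.inr ⟨rfl, h⟩

theorem Bu_cases {p q : ZMod 4} {x : P p} {y : P q} (h : Bu R ⟨p, x⟩ ⟨q, y⟩) :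
    q = p + 1 ∨ p = q := by
  rcases h with h | ⟨h, -⟩
  · exact Or.inl h
  · exact Or.inr h

theorem Bu_oriented (hR : ∀ p, Oriented (R p)) : Oriented (Bu R) := by
  rintro ⟨p, x⟩ ⟨q, y⟩ h h'
  rcases Bu_cases R h with h1 | h1 <;> rcases Bu_cases R h' with h2 | h2
  · exact z3 p q h1 h2
  · exact z1 p (by rw [h2] at h1; exact h1)
  · exact z1 q (by rw [h1] at h2; exact h2)
  · subst h1
    rw [Bu_same] at h h'
    exact hR p x y h h'

theorem Bu_triangle (hR : ∀ p, ¬ HasTriangle (R p)) : ¬ HasTriangle (Bu R) := by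
  rintro ⟨⟨p, x⟩, ⟨q, y⟩, ⟨r, z⟩, h1, h2, h3⟩
  have e1 := Bu_cases R h1
  have e2 := Bu_cases R h2
  have e3 := Bu_cases R h3
  have key : p = q ∧ q = r := z4 p q r e1 e2 e3
  obtain ⟨rfl, rfl⟩ := key
  rw [Bu_same] at h1 h2 h3
  exact hR p ⟨x, y, z, h1, h2, h3⟩

theorem Bu_outdeg [∀ p, Fintype (P p)] (p : ZMod 4) (x : P p) :
    outdeg (Bu R) ⟨p, x⟩ = Fintype.card (P (p + 1)) + outdeg (R p) x := by
  unfold outdeg
  have h1 : {v | Bu R ⟨p, x⟩ v} = (Sigma.mk (p + 1) '' (Set.univ : Set (P (p + 1)))) ∪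
      (Sigma.mk p '' {y | R p x y}) := by
    ext ⟨q, y⟩
    constructor
    · intro h
      rcases Bu_cases R h with h2 | h2
      · subst h2
        exact Or.inl ⟨y, trivial, rfl⟩
      · subst h2
        exact Or.inr ⟨y, (Bu_same R p x y).mp h, rfl⟩
    · rintro (⟨y', -, h⟩ | ⟨y', hy', h⟩)
      · rw [← h]
        exact Or.inl rfl
      · rw [← h]
        exact (Bu_same R p x y').mpr hy'
  have hdis : Disjoint (Sigma.mk (p + 1) '' (Set.univ : Set (P (p + 1))))
      (Sigma.mk p '' {y | R p x y}) := by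
    rw [Set.disjoint_left]
    rintro _ ⟨y, -, rfl⟩ ⟨y', -, h⟩
    have h2 : p = p + 1 := congrArg Sigma.fst h
    exact z1 p h2
  rw [h1, Set.ncard_union_eq hdis (Set.toFinite _) (Set.toFinite _),
    Set.ncard_image_of_injective _ sigma_mk_injective, Set.ncard_image_of_injective _
    sigma_mk_injective, Set.ncard_univ, Nat.card_eq_fintype_card]

theorem Bu_indeg [∀ p, Fintype (P p)] (p : ZMod 4) (x : P p) :
    indeg (Bu R) ⟨p, x⟩ = Fintype.card (P (p - 1)) + indeg (R p) x := by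
  unfold indeg
  have h1 : {v | Bu R v ⟨p, x⟩} = (Sigma.mk (p - 1) '' (Set.univ : Set (P (p - 1)))) ∪
      (Sigma.mk p '' {y | R p y x}) := by
    ext ⟨q, y⟩
    constructor
    · intro h
      rcases Bu_cases R h with h2 | h2
      · have h3 : q = p - 1 := by rw [h2]; ring
        subst h3
        exact Or.inl ⟨y, trivial, rfl⟩
      · subst h2
        exact Or.inr ⟨y, (Bu_same R q y x).mp h, rfl⟩
    · rintro (⟨y', -, h⟩ | ⟨y', hy', h⟩)
      · rw [← h]
        left
        show p = p - 1 + 1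
        ring
      · rw [← h]
        exact (Bu_same R p y' x).mpr hy'
  have hdis : Disjoint (Sigma.mk (p - 1) '' (Set.univ : Set (P (p - 1))))
      (Sigma.mk p '' {y | R p y x}) := by
    rw [Set.disjoint_left]
    rintro _ ⟨y, -, rfl⟩ ⟨y', -, h⟩
    have h2 : p = p - 1 := congrArg Sigma.fst h
    exact z2 p h2
  rw [h1, Set.ncard_union_eq hdis (Set.toFinite _) (Set.toFinite _),
    Set.ncard_image_of_injective _ sigma_mk_injective, Set.ncard_image_of_injective _
    sigma_mk_injective, Set.ncard_univ, Nat.card_eq_fintype_card]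

theorem Bu_disc [∀ p, Fintype (P p)] [Nonempty (P 0)] [Nonempty (P 2)] :
    ∃ S : Set (Σ p, P p), Disconnects (Bu R) S ∧ S.ncard = Fintype.card (P 3) := by
  refine ⟨Sigma.mk 3 '' (Set.univ : Set (P 3)), ?_, ?_⟩
  · have hS : ∀ (q : ZMod 4) (z : P q), (⟨q, z⟩ : Σ p, P p) ∈
        (Sigma.mk 3 '' (Set.univ : Set (P 3)) : Set (Σ p, P p)) ↔ q = 3 := by
      intro q z
      constructor
      · rintro ⟨w, -, h⟩
        exact (congrArg Sigma.fst h).symm
      · rintro rfl
        exact ⟨z, trivial, rfl⟩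
    obtain ⟨x⟩ := (inferInstance : Nonempty (P 2))
    obtain ⟨y⟩ := (inferInstance : Nonempty (P 0))
    refine ⟨⟨2, x⟩, ⟨0, y⟩, ?_, ?_, ?_⟩
    · rw [hS]; decide
    · rw [hS]; decide
    · intro h
      have key : ∀ v : Σ p, P p, Reach (Bu R) (Sigma.mk 3 '' (Set.univ : Set (P 3))) ⟨2, x⟩ v →
          v.1 = 2 := by
        intro v hv
        induction hv with
        | refl => rfl
        | @tail b c _ hbc ih =>
          obtain ⟨q, z⟩ := c
          obtain ⟨r, w⟩ := b
          have h1 := Bu_cases R hbc.1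
          have h2 := hbc.2
          rw [hS] at h2
          have h3 : r = 2 := ih
          show q = 2
          subst h3
          rcases h1 with h4 | h4
          · exfalso
            apply h2
            rw [h4]; decide
          · exact h4.symm
      have h5 : (0 : ZMod 4) = 2 := key _ h
      exact absurd h5 (by decide)
  · rw [Set.ncard_image_of_injective _ sigma_mk_injective, Set.ncard_univ,
      Nat.card_eq_fintype_card]

end

theorem t_P2 : S_P2 := by
  intro V _ _ D d hO hM hT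
  let P : ZMod 4 → Type := fun _ => V
  let R : ∀ p, P p → P p → Prop := fun _ => D
  let _ : ∀ p, Fintype (P p) := fun _ => (inferInstance : Fintype V)
  have _ : Nonempty (P 0) := (inferInstance : Nonempty V)
  have _ : Nonempty (P 2) := (inferInstance : Nonempty V)
  obtain ⟨S, hS1, hS2⟩ := Bu_disc (P := P) R
  refine ⟨Σ p, P p, inferInstance, Bu R, Bu_oriented R (fun _ => hO), ?_, ?_, ⟨S, hS1, hS2⟩,
    Bu_triangle R (fun _ => hT)⟩
  · constructor
    · rintro ⟨p, x⟩
      rw [Bu_outdeg, Bu_indeg]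
      exact ⟨Nat.add_le_add_left (hM.1 x).1 _, Nat.add_le_add_left (hM.1 x).2 _⟩
    · obtain ⟨x, hx⟩ := hM.2
      refine ⟨⟨0, x⟩, ?_⟩
      rw [Bu_outdeg, Bu_indeg]
      rcases hx with hx | hx
      · left
        show Fintype.card V + outdeg D x = _
        rw [hx]
      · right
        show Fintype.card V + indeg D x = _
        rw [hx]
  · rw [Fintype.card_sigma]
    show ∑ _p : ZMod 4, Fintype.card V = 4 * Fintype.card V
    rw [Finset.sum_const, Finset.card_univ, ZMod.card, smul_eq_mul]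

/-- the circulant relation -/
def Ci (t : ℕ) (i j : ZMod (3 * t + 1)) : Prop := 1 ≤ (j - i).val ∧ (j - i).val ≤ t

theorem Ci_oriented (t : ℕ) : Oriented (Ci t) := by
  rintro i j ⟨h1, h2⟩ ⟨h3, h4⟩
  have h : (((j - i).val + (i - j).val : ℕ) : ZMod (3 * t + 1)) = 0 := by
    push_cast
    rw [ZMod.natCast_val, ZMod.natCast_val, ZMod.cast_id, ZMod.cast_id]
    ring
  rw [ZMod.natCast_eq_zero_iff] at h
  have := Nat.le_of_dvd (by omega) h
  omega

theorem Ci_triangle (t : ℕ) : ¬ HasTriangle (Ci t) := by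
  rintro ⟨i, j, l, ⟨h1, h2⟩, ⟨h3, h4⟩, ⟨h5, h6⟩⟩
  have h : (((j - i).val + (l - j).val + (i - l).val : ℕ) : ZMod (3 * t + 1)) = 0 := by
    push_cast
    rw [ZMod.natCast_val, ZMod.natCast_val, ZMod.natCast_val, ZMod.cast_id, ZMod.cast_id,
      ZMod.cast_id]
    ring
  rw [ZMod.natCast_eq_zero_iff] at h
  have := Nat.le_of_dvd (by omega) h
  omega

theorem Ci_out (t : ℕ) (i : ZMod (3 * t + 1)) : outdeg (Ci t) i = t := by
  unfold outdeg
  have h : {j | Ci t i j} = (fun c : ℕ => i + (c : ZMod (3 * t + 1))) '' (Set.Icc 1 t) := by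
    ext j
    constructor
    · rintro ⟨h1, h2⟩
      refine ⟨(j - i).val, ⟨h1, h2⟩, ?_⟩
      show i + (((j - i).val : ℕ) : ZMod (3 * t + 1)) = j
      rw [ZMod.natCast_val, ZMod.cast_id]
      ring
    · rintro ⟨c, ⟨h1, h2⟩, rfl⟩
      have h3 : (i + (c : ZMod (3 * t + 1)) - i).val = c := by
        rw [add_sub_cancel_left]
        exact ZMod.val_cast_of_lt (by omega)
      show 1 ≤ _ ∧ _ ≤ t
      rw [h3]
      exact ⟨h1, h2⟩
  rw [h, Set.InjOn.ncard_image]
  · rw [Set.ncard_eq_toFinset_card', Set.toFinset_Icc, Nat.card_Icc]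
    omega
  · rintro c ⟨h1, h2⟩ c' ⟨h3, h4⟩ he
    have h5 : (c : ZMod (3 * t + 1)) = (c' : ZMod (3 * t + 1)) := add_left_cancel he
    have h6 := congrArg ZMod.val h5
    rwa [ZMod.val_cast_of_lt (by omega), ZMod.val_cast_of_lt (by omega)] at h6

theorem Ci_in (t : ℕ) (i : ZMod (3 * t + 1)) : indeg (Ci t) i = t := by
  unfold indeg
  have h : {j | Ci t j i} = (fun c : ℕ => i - (c : ZMod (3 * t + 1))) '' (Set.Icc 1 t) := by
    ext j
    constructor
    · rintro ⟨h1, h2⟩
      refine ⟨(i - j).val, ⟨h1, h2⟩, ?_⟩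
      show i - (((i - j).val : ℕ) : ZMod (3 * t + 1)) = j
      rw [ZMod.natCast_val, ZMod.cast_id]
      ring
    · rintro ⟨c, ⟨h1, h2⟩, rfl⟩
      have h3 : (i - (i - (c : ZMod (3 * t + 1)))).val = c := by
        rw [sub_sub_cancel]
        exact ZMod.val_cast_of_lt (by omega)
      show 1 ≤ _ ∧ _ ≤ t
      rw [h3]
      exact ⟨h1, h2⟩
  rw [h, Set.InjOn.ncard_image]
  · rw [Set.ncard_eq_toFinset_card', Set.toFinset_Icc, Nat.card_Icc]
    omega
  · rintro c ⟨h1, h2⟩ c' ⟨h3, h4⟩ he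
    have h5 : (c : ZMod (3 * t + 1)) = (c' : ZMod (3 * t + 1)) := sub_right_injective he
    have h6 := congrArg ZMod.val h5
    rwa [ZMod.val_cast_of_lt (by omega), ZMod.val_cast_of_lt (by omega)] at h6

/-- the parameters of the parts -/
def tp (a b : ℕ) (p : ZMod 4) : ℕ := if p = 0 ∨ p = 2 then a else b

theorem t_P1 : S_P1 := by
  intro a b hab
  let P : ZMod 4 → Type := fun p => ZMod (3 * tp a b p + 1)
  let R : ∀ p, P p → P p → Prop := fun p => Ci (tp a b p)
  let _ : ∀ p, Fintype (P p) := fun p => (inferInstance : Fintype (ZMod (3 * tp a b p + 1)))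
  have _ : Nonempty (P 0) := ⟨(0 : ZMod (3 * tp a b 0 + 1))⟩
  have _ : Nonempty (P 2) := ⟨(0 : ZMod (3 * tp a b 2 + 1))⟩
  have hcard : ∀ p, Fintype.card (P p) = 3 * tp a b p + 1 := fun p => ZMod.card _
  obtain ⟨S, hS1, hS2⟩ := Bu_disc (P := P) R
  have h0 : tp a b 0 = a := by unfold tp; rw [if_pos (by decide)]
  have h1 : tp a b 1 = b := by unfold tp; rw [if_neg (by decide)]
  have h2 : tp a b 2 = a := by unfold tp; rw [if_pos (by decide)]
  have h3 : tp a b 3 = b := by unfold tp; rw [if_neg (by decide)]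
  have hp : ∀ p : ZMod 4, p = 0 ∨ p = 1 ∨ p = 2 ∨ p = 3 := by decide
  have hdeg : ∀ (p : ZMod 4), a + 3 * b + 1 ≤ 3 * tp a b (p + 1) + 1 + tp a b p ∧
      a + 3 * b + 1 ≤ 3 * tp a b (p - 1) + 1 + tp a b p := by
    intro p
    rcases hp p with rfl | rfl | rfl | rfl
    · have e1 : (0 + 1 : ZMod 4) = 1 := by decide
      have e2 : (0 - 1 : ZMod 4) = 3 := by decide
      rw [e1, e2, h0, h1, h3]; omega
    · have e1 : (1 + 1 : ZMod 4) = 2 := by decide
      have e2 : (1 - 1 : ZMod 4) = 0 := by decide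
      rw [e1, e2, h0, h1, h2]; omega
    · have e1 : (2 + 1 : ZMod 4) = 3 := by decide
      have e2 : (2 - 1 : ZMod 4) = 1 := by decide
      rw [e1, e2, h3, h1, h2]; omega
    · have e1 : (3 + 1 : ZMod 4) = 0 := by decide
      have e2 : (3 - 1 : ZMod 4) = 2 := by decide
      rw [e1, e2, h0, h3, h2]; omega
  refine ⟨Σ p, P p, inferInstance, Bu R, Bu_oriented R (fun p => Ci_oriented _), ?_, ?_,
    ⟨S, hS1, ?_⟩, Bu_triangle R (fun p => Ci_triangle _)⟩
  · constructor
    · rintro ⟨p, x⟩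
      rw [Bu_outdeg, Bu_indeg, hcard, hcard]
      have e1 : outdeg (R p) x = tp a b p := Ci_out _ _
      have e2 : indeg (R p) x = tp a b p := Ci_in _ _
      rw [e1, e2]
      exact hdeg p
    · obtain ⟨x⟩ := (inferInstance : Nonempty (P 0))
      refine ⟨⟨0, x⟩, Or.inl ?_⟩
      rw [Bu_outdeg, hcard]
      have e1 : outdeg (R 0) x = tp a b 0 := Ci_out _ _
      have e3 : (0 + 1 : ZMod 4) = 1 := by decide
      rw [e1, e3, h0, h1]
      omega
  · rw [Fintype.card_sigma, Finset.sum_congr rfl fun p _ => hcard p]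
    have hu : (Finset.univ : Finset (ZMod 4)) = {0, 1, 2, 3} := by decide
    rw [hu, Finset.sum_insert (by decide), Finset.sum_insert (by decide),
      Finset.sum_insert (by decide), Finset.sum_singleton, h0, h1, h2, h3]
    omega
  · rw [hS2, hcard, h3]

end Pool.Agent.W932.PSI
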