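import Pool.Agent.W163.PSI.Defs

/-! PSI-P3: conclusion. -/

set_option autoImplicit false
set_option linter.unusedVariables false

namespace Pool.Agent.W932.PSI

open Pool.Agent.W163.PSI

theorem upper (h1 : S_P1) (r : ℝ) (hr3 : 3 < r) (hr6 : r < 6) (ψ : ℝ) (hψ : 0 < ψ)
    (hA : Admissible r ψ) : ψ ≤ (6 - r) / 4 := by
  by_contra hcon
  push Not at hcon
  set c := (6 - r) / 4 with hc
  have hc0 : 0 < c := by rw [hc]; linarith
  have hc34 : c < 3 / 4 := by rw [hc]; linarith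
  set ψ' := min ψ (3 / 4) with hψ'
  have hψ'c : c < ψ' := lt_min hcon hc34
  have hgap : 0 < ψ' - c := by linarith
  obtain ⟨d, hd⟩ := exists_nat_ge (4 / (ψ' - c))
  have hd4 : 4 ≤ (ψ' - c) * d := by
    rw [div_le_iff₀ hgap] at hd
    linarith
  have hd0 : (0 : ℝ) ≤ d := Nat.cast_nonneg d
  have hd1 : 1 ≤ d := by
    rcases Nat.eq_zero_or_pos d with h | h
    · rw [h, Nat.cast_zero, mul_zero] at hd4
      linarith
    · exact h
  set x := c * d + 1 / 2 with hx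
  have hx0 : 0 < x := by
    have := mul_nonneg hc0.le hd0
    rw [hx]; linarith
  obtain ⟨b, hb1, hb2⟩ : ∃ b : ℕ, x ≤ 3 * b + 1 ∧ (3 * b + 1 : ℝ) ≤ x + 3 := by
    by_cases h : 0 ≤ (x - 1) / 3
    · refine ⟨⌈(x - 1) / 3⌉₊, ?_, ?_⟩
      · have := Nat.le_ceil ((x - 1) / 3)
        linarith
      · have := Nat.ceil_lt_add_one h
        linarith
    · push Not at h
      refine ⟨0, ?_, ?_⟩
      · rw [Nat.cast_zero]; linarith
      · rw [Nat.cast_zero]; linarith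
  have hsψ' : (3 * b + 1 : ℝ) ≤ ψ' * d := by
    have : ψ' * d = (ψ' - c) * d + c * d := by ring
    rw [this]
    rw [hx] at hb2
    linarith
  have hs34 : (3 * b + 1 : ℝ) ≤ 3 / 4 * d :=
    hsψ'.trans (mul_le_mul_of_nonneg_right (min_le_right _ _) hd0)
  have hsψ : (3 * b + 1 : ℝ) ≤ ψ * d :=
    hsψ'.trans (mul_le_mul_of_nonneg_right (min_le_left _ _) hd0)
  have hN : 4 * (3 * b + 1) ≤ 3 * d := by
    have : (4 * (3 * b + 1) : ℝ) ≤ 3 * d := by linarith
    exact_mod_cast this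
  obtain ⟨V, _, D, hO, hM, hcard, ⟨S, hS1, hS2⟩, hT⟩ := h1 (d - (3 * b + 1)) b (by omega)
  apply hT
  have hdeq : d - (3 * b + 1) + 3 * b + 1 = d := by omega
  rw [hdeq] at hM
  refine hA V D d hd1 hO hM ?_ ⟨S, hS1, ?_⟩
  · rw [hcard]
    have h2 : 6 * (d - (3 * b + 1)) + 6 * b + 4 + 4 * (3 * b + 1) = 6 * d + 2 := by omega
    have h3 : ((6 * (d - (3 * b + 1)) + 6 * b + 4 : ℕ) : ℝ) + 4 * (3 * b + 1) = 6 * d + 2 := by
      exact_mod_cast h2
    have h4 : 4 * x = (6 - r) * d + 2 := by rw [hx, hc]; ring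
    nlinarith
  · rw [hS2]
    push_cast
    exact hsψ

theorem to_one (h : CHsemi) : psi 3 = 1 := by
  unfold psi
  have hmem : (1 : ℝ) ∈ {ψ : ℝ | 0 < ψ ∧ ψ ≤ 1 ∧ Admissible 3 ψ} := by
    refine ⟨one_pos, le_rfl, ?_⟩
    intro V _ D d hd hO hM hcard _
    obtain ⟨x, hx⟩ := hM.2
    have : Nonempty V := ⟨x⟩
    have hc : Fintype.card V ≤ 3 * d := by exact_mod_cast hcard
    rcases h V D (fun x hx => hO x x hx hx) (fun x => ⟨hc.trans (Nat.mul_le_mul_left _ (hM.1 x).1),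
      hc.trans (Nat.mul_le_mul_left _ (hM.1 x).2)⟩) with ⟨x, y, h1, h2⟩ | h1
    · exact absurd h2 (hO x y h1)
    · exact h1
  apply le_antisymm
  · exact Real.sSup_le (fun ψ hψ => hψ.2.1) zero_le_one
  · exact le_csSup ⟨1, fun ψ hψ => hψ.2.1⟩ hmem

theorem from_34 (h2 : S_P2) (h : 3 / 4 < psi 3) : CHsemi := by
  intro V _ _ D hirr hdeg
  by_contra hcon
  push Not at hcon
  obtain ⟨h3, h4⟩ := hcon
  have hne : ({ψ : ℝ | 0 < ψ ∧ ψ ≤ 1 ∧ Admissible 3 ψ}).Nonempty := by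
    by_contra he
    rw [Set.not_nonempty_iff_eq_empty] at he
    unfold psi at h
    rw [he, Real.sSup_empty] at h
    linarith
  obtain ⟨ψ, ⟨hψ0, hψ1, hA⟩, hψ⟩ := exists_lt_of_lt_csSup hne h
  have hO : Oriented D := fun x y => h3 x y
  obtain ⟨x0, hx0⟩ := Finite.exists_min (fun x => min (outdeg D x) (indeg D x))
  set d := min (outdeg D x0) (indeg D x0) with hd
  have hM : MinSemi D d := by
    refine ⟨fun x => ⟨(hx0 x).trans (min_le_left _ _), (hx0 x).trans (min_le_right _ _)⟩, x0, ?_⟩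
    rcases min_choice (outdeg D x0) (indeg D x0) with h | h
    · left; rw [hd, h]
    · right; rw [hd, h]
  have hn : Fintype.card V ≤ 3 * d := by
    rcases min_choice (outdeg D x0) (indeg D x0) with h | h
    · rw [hd, h]; exact (hdeg x0).1
    · rw [hd, h]; exact (hdeg x0).2
  have hn1 : 0 < Fintype.card V := Fintype.card_pos
  obtain ⟨W, _, E, hEO, hEM, hEc, ⟨S, hS1, hS2⟩, hET⟩ := h2 V D d hO hM h4
  apply hET
  have hn' : (Fintype.card V : ℝ) ≤ 3 * d := by exact_mod_cast hn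
  have hpos : (0 : ℝ) ≤ Fintype.card V := Nat.cast_nonneg _
  have hdpos : (0 : ℝ) ≤ d := Nat.cast_nonneg _
  refine hA W E (Fintype.card V + d) (by omega) hEO hEM ?_ ⟨S, hS1, ?_⟩
  · rw [hEc]
    push_cast
    linarith
  · rw [hS2]
    push_cast
    nlinarith

theorem t_P3 : S_P3 := by
  intro h1 h2
  refine ⟨?_, ⟨to_one, ?_⟩, ⟨?_, from_34 h2⟩⟩
  · intro r hr3 hr6
    exact Real.sSup_le (fun ψ hψ => upper h1 r hr3 hr6 ψ hψ.1 hψ.2.2) (by linarith)
  · intro h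
    exact from_34 h2 (by rw [h]; norm_num)
  · intro h
    rw [to_one h]
    norm_num

end Pool.Agent.W932.PSI
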